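import Pool.Agent.P.MP_bab3d5_co.Match

set_option autoImplicit false

namespace Pool.Agent.Results.MP_bab3d5_co.FourDivides

open SimpleGraph

/-- For odd r, c not both 3 mod 4 and an even white hole h of the r × c grid graph (the cell
with index (i, j) in Fin r × Fin c is the vertex (i + 1, j + 1) of the problem), the number of
matchings of the grid covering exactly the vertices other than h is divisible by 4. -/
theorem result (r c : ℕ) (hr : Odd r) (hc : Odd c) (h3 : ¬ (r % 4 = 3 ∧ c % 4 = 3))
    (h : Fin r × Fin c) (h1 : Even (h.1.val + 1)) (h2 : Even (h.2.val + 1)) :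
    4 ∣ Nat.card {M : (pathGraph r □ pathGraph c).Subgraph // M.IsMatching ∧ M.verts = {h}ᶜ} :=
  Pool.Agent.P.MP_bab3d5_co.main (Nat.odd_iff.mp hr) (Nat.odd_iff.mp hc) h3 h
    (by rw [Nat.even_iff] at h1; omega) (by rw [Nat.even_iff] at h2; omega)

end Pool.Agent.Results.MP_bab3d5_co.FourDivides
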